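import Pool.Agent.H5.DPG.Stmts

/-!
Board `dpg`, row ZRM: removal of a closed region won by `j`.
-/

set_option autoImplicit false

namespace Pool.DPG

open Filter TMLib Pool.PG

theorem zrm_shift {i : Bool} {q : ℕ → ℕ} (k : ℕ) (h : WonP i (fun n => q (n + k))) :
    WonP i q := by
  obtain ⟨p, h1, h2, h3⟩ := h
  refine ⟨p, ?_, ?_, h3⟩
  · rw [frequently_atTop] at h1 ⊢
    intro a
    obtain ⟨b, hb, hb'⟩ := h1 a
    exact ⟨b + k, by omega, hb'⟩
  · rw [eventually_atTop] at h2 ⊢
    obtain ⟨a, ha⟩ := h2
    refine ⟨a + k, fun b hb => ?_⟩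
    have h4 := ha (b - k) (by omega)
    have e : b - k + k = b := by omega
    simpa [e] using h4

/-- The plays in `B`. -/
theorem zrm_in {V : Type} {own : V → Bool} {pri : V → ℕ} {E : V → V → Prop} {S B : Finset V}
    {j : Bool} {τ : V → V} (hcl : ∀ v ∈ B, own v ≠ j → ∀ w ∈ S, E v w → w ∈ B)
    (hτ : SolS own pri E B (fun _ => j) τ) (x : ℕ → V) (h0 : x 0 ∈ B)
    (hx : ∀ n, x n ∈ S ∧ E (x n) (x (n + 1)))
    (hf : ∀ n, x n ∈ B → own (x n) = j → x (n + 1) = τ (x n)) :
    WonP j (fun n => pri (x n)) := by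
  have hB : ∀ n, x n ∈ B := by
    intro n
    induction n with
    | zero => exact h0
    | succ n ih =>
      by_cases ho : own (x n) = j
      · rw [hf n ih ho]
        exact (hτ.mem _ ih).1
      · exact hcl _ ih ho _ (hx (n + 1)).1 (hx n).2
  exact hτ.won (x 0) h0 x rfl (fun n => ⟨hB n, (hx n).2⟩) (fun n ho => hf n (hB n) ho)

open Classical in
theorem zrm_thm : ZRMStmt := by
  intro V own pri E S B j W σ hD hcl hS
  obtain ⟨hBS, hDcl, τ, hτ⟩ := hD
  have hstay : ∀ v ∈ S, own v = (if v ∈ B then j else W v) →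
      (if (if v ∈ B then τ v else σ v) ∈ B then j else W (if v ∈ B then τ v else σ v)) =
        (if v ∈ B then j else W v) := by
    intro v hv ho
    by_cases hvB : v ∈ B
    · simp only [hvB, if_true, (hτ.mem v hvB).1]
    · have hm := Finset.mem_sdiff.2 ⟨hv, hvB⟩
      have h1 := (Finset.mem_sdiff.1 (hS.mem v hm).1).2
      simp only [hvB, if_false] at ho ⊢
      simp only [h1, if_false]
      exact hS.stay v hm ho
  have htrap : ∀ v ∈ S, own v ≠ (if v ∈ B then j else W v) → ∀ w ∈ S, E v w →
      (if w ∈ B then j else W w) = (if v ∈ B then j else W v) := by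
    intro v hv ho w hw hvw
    by_cases hvB : v ∈ B
    · simp only [hvB, if_true] at ho ⊢
      simp only [hDcl v hvB ho w hw hvw, if_true]
    · have hm := Finset.mem_sdiff.2 ⟨hv, hvB⟩
      simp only [hvB, if_false] at ho ⊢
      by_cases hwB : w ∈ B
      · have hne : own v ≠ j := fun e => hcl v hv hvB e w hw hvw hwB
        simp only [hwB, if_true]
        revert hne ho
        cases own v <;> cases j <;> cases W v <;> simp
      · simp only [hwB, if_false]
        exact hS.trap v hm ho w (Finset.mem_sdiff.2 ⟨hw, hwB⟩) hvw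
  refine ⟨fun v => if v ∈ B then τ v else σ v, ?_, hstay, htrap, ?_⟩
  · intro v hv
    by_cases hvB : v ∈ B
    · simp only [hvB, if_true]
      exact ⟨hBS (hτ.mem v hvB).1, (hτ.mem v hvB).2⟩
    · have hm := Finset.mem_sdiff.2 ⟨hv, hvB⟩
      simp only [hvB, if_false]
      exact ⟨(Finset.mem_sdiff.1 (hS.mem v hm).1).1, (hS.mem v hm).2⟩
  · intro v hv x hx0 hx hf
    have hW : ∀ n, (if x n ∈ B then j else W (x n)) = (if v ∈ B then j else W v) := by
      intro n
      induction n with
      | zero => rw [hx0]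
      | succ n ih =>
        by_cases ho : own (x n) = (if v ∈ B then j else W v)
        · rw [hf n ho]
          rw [← ih] at ho ⊢
          exact hstay (x n) (hx n).1 ho
        · rw [← ih] at ho ⊢
          exact htrap (x n) (hx n).1 ho _ (hx (n + 1)).1 (hx n).2
    by_cases hex : ∃ n, x n ∈ B
    · obtain ⟨k, hk⟩ := hex
      have hj : (if v ∈ B then j else W v) = j := by
        rw [← hW k]
        simp only [hk, if_true]
      simp only [hj] at hf ⊢
      refine zrm_shift k ?_
      refine zrm_in hDcl hτ (fun n => x (n + k)) (by simpa using hk) (fun n => ?_) ?_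
      · have h1 := hx (n + k)
        rw [show n + k + 1 = n + 1 + k by omega] at h1
        exact h1
      · intro n hn ho
        have h1 := hf (n + k) ho
        rw [show n + k + 1 = n + 1 + k by omega] at h1
        simp only [hn, if_true] at h1
        exact h1
    · have hno : ∀ n, x n ∉ B := fun n h => hex ⟨n, h⟩
      have hvB : v ∉ B := by
        rw [← hx0]
        exact hno 0
      simp only [hvB, if_false] at hf ⊢
      refine hS.won v (Finset.mem_sdiff.2 ⟨hv, hvB⟩) x hx0
        (fun n => ⟨Finset.mem_sdiff.2 ⟨(hx n).1, hno n⟩, (hx n).2⟩) (fun n ho => ?_)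
      have h1 := hf n ho
      simp only [hno n, if_false] at h1
      exact h1

end Pool.DPG
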