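import Pool.Agent.H5.DPG.Stmts

/-!
Board `dpg`, row PMA: masks and attractors are computed in polynomial time.
-/

set_option autoImplicit false

namespace Pool.DPG

open Filter TMLib Pool.PG

namespace PMA

variable {α : Type} [Enc α]

theorem own' (h : PV1Stmt) {f : α → Game} {v : α → ℕ} (hf : PTime f) (hv : PTime v) :
    PTime (fun x => own (f x) (v x)) :=
  PTime.comp2 (g := fun (g : Game) (v : ℕ) => own g v) h.2.1 hf hv

theorem pri' (h : PV1Stmt) {f : α → Game} {v : α → ℕ} (hf : PTime f) (hv : PTime v) :
    PTime (fun x => pri (f x) (v x)) :=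
  PTime.comp2 (g := fun (g : Game) (v : ℕ) => pri g v) h.2.2.1 hf hv

theorem suc' (h : PV1Stmt) {f : α → Game} {v : α → ℕ} (hf : PTime f) (hv : PTime v) :
    PTime (fun x => suc (f x) (v x)) :=
  PTime.comp2 (g := fun (g : Game) (v : ℕ) => suc g v) h.2.2.2.1 hf hv

theorem gt' {l : α → List Bool} {v : α → ℕ} (hl : PTime l) (hv : PTime v) :
    PTime (fun x => (l x).getD (v x) false) :=
  PTime.listGetD hl hv (PTime.const false)

theorem bne' {f g : α → Bool} (hf : PTime f) (hg : PTime g) : PTime (fun x => f x != g x) :=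
  (PTime.not (PTime.eq hf hg)).congr fun x => by
    cases f x <;> cases g x <;> rfl

theorem msk' {n : α → ℕ} {f : α → ℕ → Bool} (hn : PTime n)
    (hf : PTime fun p : α × ℕ => f p.1 p.2) : PTime (fun x => msk (n x) (f x)) :=
  PTime.map (PTime.range hn) hf

theorem len_msk (n : ℕ) (f : ℕ → Bool) : (msk n f).length = n := by
  simp [msk]

theorem sz_bl (l : List Bool) (g : Game) (h : l.length = g.length) : sz l ≤ 1 + sz g * 4 := by
  have h1 := sz_list_le l (sz g) 3 (by have := length_lt_sz g; omega) (fun a _ => sz_bool_le a)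
  omega

theorem dif' {G : α → Game} {X Y : α → List Bool} (hG : PTime G) (hX : PTime X) (hY : PTime Y) :
    PTime (fun x => dif (G x) (X x) (Y x)) :=
  msk' (f := fun x v => (X x).getD v false && !(Y x).getD v false) (PTime.length hG)
    (PTime.and (gt' (hX.comp (PTime.fst PTime.id)) (PTime.snd PTime.id))
      (PTime.not (gt' (hY.comp (PTime.fst PTime.id)) (PTime.snd PTime.id))))

theorem ats' (h : PV1Stmt) (i : Bool) {G : α → Game} {X T : α → List Bool} (hG : PTime G)
    (hX : PTime X) (hT : PTime T) : PTime (fun x => ats i (G x) (X x) (T x)) := by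
  refine msk' (f := fun x v => (X x).getD v false && ((T x).getD v false ||
    (if own (G x) v = i then (suc (G x) v).any fun w => (T x).getD w false
      else (suc (G x) v).all fun w => !(X x).getD w false || (T x).getD w false)))
    (PTime.length hG) ?_
  refine PTime.and (gt' (hX.comp (PTime.fst PTime.id)) (PTime.snd PTime.id))
    (PTime.or (gt' (hT.comp (PTime.fst PTime.id)) (PTime.snd PTime.id)) ?_)
  refine PTime.ite (PTime.eq (own' h (hG.comp (PTime.fst PTime.id)) (PTime.snd PTime.id))
    (PTime.const i)) ?_ ?_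
  · exact PTime.any (l := fun p : α × ℕ => suc (G p.1) p.2)
      (g := fun p w => (T p.1).getD w false)
      (suc' h (hG.comp (PTime.fst PTime.id)) (PTime.snd PTime.id))
      (gt' (hT.comp (PTime.fst (PTime.fst PTime.id))) (PTime.snd PTime.id))
  · exact PTime.all (l := fun p : α × ℕ => suc (G p.1) p.2)
      (g := fun p w => !(X p.1).getD w false || (T p.1).getD w false)
      (suc' h (hG.comp (PTime.fst PTime.id)) (PTime.snd PTime.id))
      (PTime.or (PTime.not (gt' (hX.comp (PTime.fst (PTime.fst PTime.id))) (PTime.snd PTime.id)))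
        (gt' (hT.comp (PTime.fst (PTime.fst PTime.id))) (PTime.snd PTime.id)))

/-- The step of the iteration. -/
def stp (i : Bool) (s : (Game × List Bool) × List Bool) : (Game × List Bool) × List Bool :=
  (s.1, ats i s.1.1 s.1.2 s.2)

theorem stp_iter (i : Bool) (g : Game) (X T : List Bool) (k : ℕ) :
    (stp i)^[k] ((g, X), T) = ((g, X), (ats i g X)^[k] T) := by
  induction k with
  | zero => rfl
  | succ k ih => rw [Function.iterate_succ_apply', ih, Function.iterate_succ_apply']; rfl

theorem len_iter (i : Bool) (g : Game) (X T : List Bool) (hT : T.length = g.length) (k : ℕ) :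
    ((ats i g X)^[k] T).length = g.length := by
  cases k with
  | zero => exact hT
  | succ k => rw [Function.iterate_succ_apply']; exact len_msk _ _

theorem att' (h : PV1Stmt) (i : Bool) {G : α → Game} {X T : α → List Bool} (hG : PTime G)
    (hX : PTime X) (hT : PTime T) : PTime (fun x => att i (G x) (X x) (T x)) := by
  have h0 : PTime (fun x => msk (G x).length fun v => (X x).getD v false && (T x).getD v false) :=
    msk' (f := fun x v => (X x).getD v false && (T x).getD v false) (PTime.length hG)
      (PTime.and (gt' (hX.comp (PTime.fst PTime.id)) (PTime.snd PTime.id))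
        (gt' (hT.comp (PTime.fst PTime.id)) (PTime.snd PTime.id)))
  have h1 := PTime.iter (f := stp i)
    (s := fun x => ((G x, X x), msk (G x).length fun v => (X x).getD v false && (T x).getD v false))
    (n := fun x => (G x).length)
    (PTime.pair (PTime.fst PTime.id) (ats' h i (PTime.fst (PTime.fst PTime.id))
      (PTime.snd (PTime.fst PTime.id)) (PTime.snd PTime.id)))
    (PTime.pair (PTime.pair hG hX) h0) (PTime.length hG)
    (h := fun x => 5 * sz (G x) + sz (X x) + 3)
    ((((PB.const 5).mul hG.pb).add hX.pb).add (PB.const 3)) (by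
      intro x k _
      rw [stp_iter, sz_pair, sz_pair]
      have := sz_bl ((ats i (G x) (X x))^[k]
        (msk (G x).length fun v => (X x).getD v false && (T x).getD v false)) (G x)
        (len_iter i (G x) (X x) _ (len_msk _ _) k)
      dsimp only
      omega)
  exact (PTime.snd h1).congr fun x => by rw [stp_iter]; rfl

theorem mp' (h : PV1Stmt) {G : α → Game} {X : α → List Bool} (hG : PTime G) (hX : PTime X) :
    PTime (fun x => mp (G x) (X x)) := by
  refine h.2.2.2.2.2.2.comp ?_
  refine PTime.map (g := fun x v => pri (G x) v) ?_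
    (pri' h (hG.comp (PTime.fst PTime.id)) (PTime.snd PTime.id))
  exact PTime.filter (g := fun x v => (X x).getD v false) (PTime.range (PTime.length hG))
    (gt' (hX.comp (PTime.fst PTime.id)) (PTime.snd PTime.id))

theorem tp' (h : PV1Stmt) {G : α → Game} {X : α → List Bool} (hG : PTime G) (hX : PTime X) :
    PTime (fun x => tp (G x) (X x)) := by
  refine msk' (f := fun x v => (X x).getD v false && decide (pri (G x) v = mp (G x) (X x)))
    (PTime.length hG) ?_
  exact PTime.and (gt' (hX.comp (PTime.fst PTime.id)) (PTime.snd PTime.id))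
    (PTime.eq (pri' h (hG.comp (PTime.fst PTime.id)) (PTime.snd PTime.id))
      ((mp' h hG hX).comp (PTime.fst PTime.id)))

theorem pl' (h : PV1Stmt) {G : α → Game} {X : α → List Bool} (hG : PTime G) (hX : PTime X) :
    PTime (fun x => pl (G x) (X x)) :=
  h.2.2.2.2.2.1.comp (mp' h hG hX)

/-- The attractor of a player which depends on the input. -/
theorem attb (h : PV1Stmt) {i : α → Bool} {G : α → Game} {X T : α → List Bool} (hi : PTime i)
    (hG : PTime G) (hX : PTime X) (hT : PTime T) :
    PTime (fun x => att (i x) (G x) (X x) (T x)) :=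
  (PTime.cond hi (att' h true hG hX hT) (att' h false hG hX hT)).congr fun x => by
    cases i x <;> rfl

theorem nA' (h : PV1Stmt) {G : α → Game} {X : α → List Bool} (hG : PTime G) (hX : PTime X) :
    PTime (fun x => nA (G x) (X x)) :=
  attb h (pl' h hG hX) hG hX (tp' h hG hX)

theorem bad' (h : PV1Stmt) {G : α → Game} {X L : α → List Bool} (hG : PTime G) (hX : PTime X)
    (hL : PTime L) : PTime (fun x => bad (G x) (X x) (L x)) := by
  refine msk' (f := fun x v => (dif (G x) (X x) (nA (G x) (X x))).getD v false &&
    ((L x).getD v false != pl (G x) (X x))) (PTime.length hG) ?_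
  exact PTime.and (gt' ((dif' hG hX (nA' h hG hX)).comp (PTime.fst PTime.id))
    (PTime.snd PTime.id)) (bne' (gt' (hL.comp (PTime.fst PTime.id)) (PTime.snd PTime.id))
      ((pl' h hG hX).comp (PTime.fst PTime.id)))

end PMA

theorem pma_thm (h : PV1Stmt) : PMAStmt :=
  ⟨PMA.dif' (PTime.fst PTime.id) (PTime.fst (PTime.snd PTime.id)) (PTime.snd (PTime.snd PTime.id)),
    fun i => PMA.att' h i (PTime.fst PTime.id) (PTime.fst (PTime.snd PTime.id))
      (PTime.snd (PTime.snd PTime.id)),
    PMA.mp' h (PTime.fst PTime.id) (PTime.snd PTime.id),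
    PMA.tp' h (PTime.fst PTime.id) (PTime.snd PTime.id),
    PMA.pl' h (PTime.fst PTime.id) (PTime.snd PTime.id),
    PMA.nA' h (PTime.fst PTime.id) (PTime.snd PTime.id),
    PMA.bad' h (PTime.fst PTime.id) (PTime.fst (PTime.snd PTime.id))
      (PTime.snd (PTime.snd PTime.id))⟩

end Pool.DPG
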